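import Pool.Agent.Helper36.PT.Base

/-!
# PT-A1: moving frames
-/

set_option autoImplicit false

namespace Pool.Agent.Helper36.PT

open Pool.Agent.Helper68.SP

section A1

variable {w u v X : List Bool}

theorem exec_mvBit (k k' : Stk) (hk : k ≠ k') (S : St) (c : Bool) (l : List Bool)
    (h : S k = c :: l) :
    ExecLe (mvBit k k') S 3 (Function.update (Function.update S k l) k' (c :: S k')) := by
  have h1 := ExecLe.pop k S
  rw [h, List.tail_cons] at h1
  cases c
  · refine ExecLe.ite_false (by rw [h]; rfl) ?_
    have h2 := h1.seq (ExecLe.push k' false _)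
    rw [Function.update_of_ne (Ne.symm hk)] at h2
    exact h2
  · refine ExecLe.ite_true (by rw [h]; rfl) ?_
    have h2 := h1.seq (ExecLe.push k' true _)
    rw [Function.update_of_ne (Ne.symm hk)] at h2
    exact h2

theorem exec_mvLoop (k k' : Stk) (hk : k ≠ k') (w : List Bool) :
    ∀ (S : St) (l u Y : List Bool), S k = fr w ++ l → S k' = fr u ++ Y →
    ExecLe (.whl k isT (.seq (.pop k) (.seq (mvBit k k') (.push k' true)))) S (6 * w.length + 1)
      (Function.update (Function.update S k (false :: l)) k' (fr (w.reverse ++ u) ++ Y)) := by
  induction w with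
  | nil =>
    intro S l u Y h h'
    have e : Function.update (Function.update S k (false :: l)) k'
        (fr (([] : List Bool).reverse ++ u) ++ Y) = S := by
      have e1 : (false :: l) = S k := h.symm
      have e2 : fr (([] : List Bool).reverse ++ u) ++ Y = S k' := h'.symm
      rw [e1, e2, Function.update_eq_self, Function.update_eq_self]
    rw [e]
    exact (ExecLe.whl_done (by rw [h]; rfl)).mono (by simp)
  | cons c w ih =>
    intro S l u Y h h'
    have h1 := ExecLe.pop k S
    rw [h] at h1
    have h2 := exec_mvBit k k' hk (Function.update S k (c :: (fr w ++ l))) c (fr w ++ l) (by simp)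
    have h3 := h1.seq (h2.seq (ExecLe.push k' true _))
    have h4 := ih (Function.update (Function.update S k (fr w ++ l)) k' (true :: c :: S k'))
      l (c :: u) Y (by rw [Function.update_of_ne hk, Function.update_self])
      (by rw [Function.update_self, h']; rfl)
    have e : Function.update (Function.update (Function.update
        (Function.update S k (c :: (fr w ++ l))) k (fr w ++ l)) k'
        (c :: Function.update S k (c :: (fr w ++ l)) k')) k'
        (true :: Function.update (Function.update
        (Function.update S k (c :: (fr w ++ l))) k (fr w ++ l)) k'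
        (c :: Function.update S k (c :: (fr w ++ l)) k') k') =
        Function.update (Function.update S k (fr w ++ l)) k' (true :: c :: S k') := by
      rw [Function.update_self, Function.update_idem, Function.update_idem,
        Function.update_of_ne (Ne.symm hk)]
    rw [e] at h3
    have h5 := ExecLe.whl_step (k := k) (t := isT) (by rw [h]; rfl) h3 h4
    have e2 : Function.update (Function.update (Function.update (Function.update S k (fr w ++ l))
        k' (true :: c :: S k')) k (false :: l)) k' (fr (w.reverse ++ (c :: u)) ++ Y) =
        Function.update (Function.update S k (false :: l)) k'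
          (fr ((c :: w).reverse ++ u) ++ Y) := by
      rw [Function.update_comm hk, Function.update_idem, Function.update_comm (Ne.symm hk),
        Function.update_idem]
      simp
    rw [e2] at h5
    exact h5.mono (by simp only [List.length_cons]; omega)

theorem exec_mvF (k k' : Stk) (hk : k ≠ k') (w : List Bool) (S : St) (l : List Bool)
    (h : S k = fr w ++ l) :
    ExecLe (mvF k k') S (8 * w.length + 3)
      (Function.update (Function.update S k l) k' (fr w.reverse ++ S k')) := by
  have h1 := ExecLe.push k' false S
  have h2 := exec_mvLoop k k' hk w (Function.update S k' (false :: S k')) l [] (S k')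
    (by rw [Function.update_of_ne hk, h]) (by rw [Function.update_self]; rfl)
  have h3 := h1.seq (h2.seq (ExecLe.pop k _))
  have e : Function.update (Function.update (Function.update (Function.update S k'
      (false :: S k')) k (false :: l)) k' (fr (w.reverse ++ []) ++ S k')) k
      (Function.update (Function.update (Function.update S k'
      (false :: S k')) k (false :: l)) k' (fr (w.reverse ++ []) ++ S k') k).tail =
      Function.update (Function.update S k l) k' (fr w.reverse ++ S k') := by
    rw [Function.update_of_ne hk, Function.update_self, List.tail_cons, List.append_nil]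
    rw [Function.update_comm (Ne.symm hk), Function.update_idem, Function.update_comm hk,
      Function.update_idem, Function.update_comm (Ne.symm hk)]
  rw [e] at h3
  exact h3.mono (by omega)

theorem exec_dropLoop (i r a b o : List Bool) : ∀ w X : List Bool,
    ExecLe (.whl .x isT (.seq (.pop .x) (.pop .x))) (st i (fr w ++ X) r a b o) (3 * w.length + 1)
      (st i (false :: X) r a b o) := by
  intro w
  induction w with
  | nil => intro X; exact ExecLe.whl_done rfl
  | cons c w ih =>
    intro X
    have h1 := (ExecLe.pop .x (st i (fr (c :: w) ++ X) r a b o)).seq (ExecLe.pop .x _)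
    simp only [upd_x, st_x] at h1
    have h2 := ExecLe.whl_step (k := .x) (t := isT) (by rfl) h1 (ih X)
    exact h2.mono (by simp only [List.length_cons]; omega)

theorem does_dropF : Does dropF (fr w ++ X) (4 * w.length + 4) X := by
  intro i r o
  have h1 := (exec_dropLoop i r [] [] o w X).seq (ExecLe.pop .x _)
  simp only [upd_x, st_x, List.tail_cons] at h1
  exact h1.mono (by omega)

theorem exec_mvF2Loop (i r o : List Bool) : ∀ (w a u x v b : List Bool),
    ExecLe (.whl .a isT (.seq (.pop .a) (.seq
      (.ite .a isT (.seq (.pop .a) (.seq (.push .x true) (.push .b true)))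
        (.seq (.pop .a) (.seq (.push .x false) (.push .b false))))
      (.seq (.push .x true) (.push .b true)))))
      (st i (fr u ++ x) r (fr w ++ a) (fr v ++ b) o) (8 * w.length + 1)
      (st i (fr (w.reverse ++ u) ++ x) r (false :: a) (fr (w.reverse ++ v) ++ b) o) := by
  intro w
  induction w with
  | nil => intro a u x v b; exact ExecLe.whl_done rfl
  | cons c w ih =>
    intro a u x v b
    have h1 := ExecLe.pop .a (st i (fr u ++ x) r (fr (c :: w) ++ a) (fr v ++ b) o)
    simp only [upd_a, st_a] at h1
    have h2 : ExecLe (.ite .a isT (.seq (.pop .a) (.seq (.push .x true) (.push .b true)))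
        (.seq (.pop .a) (.seq (.push .x false) (.push .b false))))
        (st i (fr u ++ x) r (c :: (fr w ++ a)) (fr v ++ b) o) 4
        (st i (c :: (fr u ++ x)) r (fr w ++ a) (c :: (fr v ++ b)) o) := by
      cases c
      · refine ExecLe.ite_false rfl ?_
        have := (ExecLe.pop .a (st i (fr u ++ x) r (false :: (fr w ++ a)) (fr v ++ b) o)).seq
          ((ExecLe.push .x false _).seq (ExecLe.push .b false _))
        simpa only [upd_a, upd_x, upd_b, st_a, st_x, st_b, List.tail_cons] using this
      · refine ExecLe.ite_true rfl ?_
        have := (ExecLe.pop .a (st i (fr u ++ x) r (true :: (fr w ++ a)) (fr v ++ b) o)).seq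
          ((ExecLe.push .x true _).seq (ExecLe.push .b true _))
        simpa only [upd_a, upd_x, upd_b, st_a, st_x, st_b, List.tail_cons] using this
    have h3 := (ExecLe.push .x true (st i (c :: (fr u ++ x)) r (fr w ++ a)
      (c :: (fr v ++ b)) o)).seq (ExecLe.push .b true _)
    simp only [upd_x, upd_b, st_x, st_b] at h3
    have h4 := ih a (c :: u) x (c :: v) b
    have h5 := ExecLe.whl_step (k := .a) (t := isT) (by rfl) (h1.seq (h2.seq h3)) h4
    have e1 : (c :: w).reverse ++ u = w.reverse ++ (c :: u) := by simp
    have e2 : (c :: w).reverse ++ v = w.reverse ++ (c :: v) := by simp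
    rw [e1, e2]
    exact h5.mono (by simp only [List.length_cons]; omega)

theorem exec_mvF2 (i r o w a x b : List Bool) :
    ExecLe mvF2 (st i x r (fr w ++ a) b o) (8 * w.length + 4)
      (st i (fr w.reverse ++ x) r a (fr w.reverse ++ b) o) := by
  have h1 := (ExecLe.push .x false (st i x r (fr w ++ a) b o))
  simp only [upd_x, st_x] at h1
  have h2 := (ExecLe.push .b false (st i (false :: x) r (fr w ++ a) b o))
  simp only [upd_b, st_b] at h2
  have h3 := exec_mvF2Loop i r o w a [] x [] b
  rw [List.append_nil] at h3
  have h4 := ExecLe.pop .a (st i (fr w.reverse ++ x) r (false :: a) (fr w.reverse ++ b) o)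
  simp only [upd_a, st_a, List.tail_cons] at h4
  exact (h1.seq (h2.seq (h3.seq h4))).mono (by omega)

theorem does_dupF : Does dupF (fr w ++ X) (40 * w.length + 40) (fr w ++ (fr w ++ X)) := by
  intro i r o
  have h1 := exec_mvF .x .a (by decide) w (st i (fr w ++ X) r [] [] o) X rfl
  simp only [upd_x, upd_a, st_a] at h1
  have h2 := exec_mvF2 i r o w.reverse [] X []
  rw [List.reverse_reverse] at h2
  have h3 := exec_mvF .b .a (by decide) w (st i (fr w ++ X) r [] (fr w ++ []) o) [] rfl
  simp only [upd_b, upd_a, st_a] at h3
  have h4 := exec_mvF .a .x (by decide) w.reverse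
    (st i (fr w ++ X) r (fr w.reverse ++ []) [] o) [] rfl
  simp only [upd_x, upd_a, st_x, List.reverse_reverse] at h4
  refine (h1.seq (h2.seq (h3.seq h4))).mono ?_
  simp only [List.length_reverse]
  omega

theorem does_swapF : Does swapF (fr u ++ (fr v ++ X)) (20 * u.length + 20 * v.length + 20)
    (fr v ++ (fr u ++ X)) := by
  intro i r o
  have h1 := exec_mvF .x .a (by decide) u (st i (fr u ++ (fr v ++ X)) r [] [] o) (fr v ++ X) rfl
  simp only [upd_x, upd_a, st_a] at h1
  have h2 := exec_mvF .x .b (by decide) v
    (st i (fr v ++ X) r (fr u.reverse ++ []) [] o) X rfl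
  simp only [upd_x, upd_b, st_b] at h2
  have h3 := exec_mvF .a .x (by decide) u.reverse
    (st i X r (fr u.reverse ++ []) (fr v.reverse ++ []) o) [] rfl
  simp only [upd_x, upd_a, st_x, List.reverse_reverse] at h3
  have h4 := exec_mvF .b .x (by decide) v.reverse
    (st i (fr u ++ X) r [] (fr v.reverse ++ []) o) [] rfl
  simp only [upd_x, upd_b, st_x, List.reverse_reverse] at h4
  refine (h1.seq (h2.seq (h3.seq h4))).mono ?_
  simp only [List.length_reverse]
  omega

theorem does_underF {p : P} {Y : List Bool} {n : ℕ} (h : Does p X n Y) :
    Does (underF p) (fr w ++ X) (n + 20 * w.length + 10) (fr w ++ Y) := by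
  intro i r o
  have h1 := exec_mvF .x .r (by decide) w (st i (fr w ++ X) r [] [] o) X rfl
  simp only [upd_x, upd_r, st_r] at h1
  have h2 := h i (fr w.reverse ++ r) o
  have h3 := exec_mvF .r .x (by decide) w.reverse (st i Y (fr w.reverse ++ r) [] [] o) r rfl
  simp only [upd_x, upd_r, st_x, List.reverse_reverse] at h3
  refine (h1.seq (h2.seq h3)).mono ?_
  simp only [List.length_reverse]
  omega

end A1

end Pool.Agent.Helper36.PT
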