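import Pool.Agent.Helper14.PT.A1
import Pool.Agent.Helper68.PT.A2
import Pool.Agent.Helper68.PT.A3
import Pool.Agent.Helper68.PT.B2
import Pool.Agent.Helper50.PT.Bounds

/-!
# PT-B3: primitive functions on numbers, Booleans, lists
-/

set_option autoImplicit false

namespace Pool.Agent.Helper36.PT

open Pool.Agent.Helper68.SP

section B3

variable {α β γ : Type} [Enc α] [Enc β] [Enc γ]

theorem PolyTime.succ : PolyTime Nat.succ := by
  refine ⟨.seq (.push .x true) (.push .x true), 1, fun n X => ?_⟩
  intro i r o
  have h := (ExecLe.push .x true (st i (fr (enc n) ++ X) r [] [] o)).seq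
    (ExecLe.push .x true _)
  simp only [upd_x, st_x] at h
  exact h.mono (by rw [pow_one]; omega)

theorem PolyTime.pred : PolyTime Nat.pred := by
  refine ⟨.ite .x isT (.seq (.pop .x) (.pop .x)) .skip, 2, fun n X => ?_⟩
  intro i r o
  cases n with
  | zero =>
    have h := ExecLe.skip (st i (fr (enc 0) ++ X) r [] [] o)
    exact (ExecLe.ite_false (by rfl) h).mono (by norm_num [esz_nat])
  | succ n =>
    have h := (ExecLe.pop .x (st i (fr (enc (n + 1)) ++ X) r [] [] o)).seq (ExecLe.pop .x _)
    simp only [upd_x, st_x] at h
    refine (ExecLe.ite_true (k := .x) (t := isT) (by rfl) h).mono ?_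
    rw [esz_nat]
    exact le_trans (by norm_num : 1 + 1 + 1 ≤ 3 ^ 2) (Nat.pow_le_pow_left (by omega) 2)

/-- from a test of the top word to a Boolean function -/
theorem caseF_const {f : α → Bool} (b0 b1 b2 : Bool)
    (h0 : ∀ a, enc a = [] → f a = b0)
    (h1 : ∀ a w, enc a = false :: w → f a = b1)
    (h2 : ∀ a w, enc a = true :: w → f a = b2) : PolyTime f := by
  refine PolyTime.mk (caseF (.seq dropF (constF [b0])) (.seq dropF (constF [b1]))
    (.seq dropF (constF [b2]))) (fun a => 4 * esz a + 20)
    (((Bdd.const 4).mul Bdd.size).add (Bdd.const 20)) ?_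
  intro a X
  have ea : esz a = (enc a).length := rfl
  rcases hw : enc a with _ | ⟨c, w⟩
  · have e : enc (f a) = [b0] := by rw [h0 a hw]; rfl
    rw [e]
    refine (does_caseF_nil ((does_dropF (w := [])).seq
      (does_constF (w := [b0]) (X := X)))).mono ?_
    simp
  · have hl : (enc a).length = w.length + 1 := by rw [hw]; rfl
    cases c
    · have e : enc (f a) = [b1] := by rw [h1 a w hw]; rfl
      rw [e]
      refine (does_caseF_false ((does_dropF (w := w)).seq
        (does_constF (w := [b1]) (X := X)))).mono ?_
      simp only [List.length_singleton]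
      omega
    · have e : enc (f a) = [b2] := by rw [h2 a w hw]; rfl
      rw [e]
      refine (does_caseF_true ((does_dropF (w := w)).seq
        (does_constF (w := [b2]) (X := X)))).mono ?_
      simp only [List.length_singleton]
      omega

theorem PolyTime.isZero : PolyTime (fun n : ℕ => decide (n = 0)) := by
  apply caseF_const true false false
  · intro n hn
    have : n = 0 := by simpa [enc] using hn
    simp [this]
  · intro n w hn
    rcases n with _ | n
    · simp [enc] at hn
    · simp
  · intro n w hn
    rcases n with _ | n
    · simp [enc] at hn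
    · simp

theorem PolyTime.not : PolyTime (fun c : Bool => !c) := by
  apply caseF_const true true false
  · intro c hc; simp [enc] at hc
  · intro c w hc
    simp only [enc, List.cons.injEq] at hc
    rw [hc.1]; rfl
  · intro c w hc
    simp only [enc, List.cons.injEq] at hc
    rw [hc.1]; rfl

theorem PolyTime.and : PolyTime (fun p : Bool × Bool => p.1 && p.2) := by
  refine (PolyTime.cond (PolyTime.fst (α := Bool) (β := Bool)) PolyTime.snd
    (PolyTime.const false)).congr ?_
  rintro ⟨a, b⟩
  cases a <;> simp

theorem PolyTime.or : PolyTime (fun p : Bool × Bool => p.1 || p.2) := by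
  refine (PolyTime.cond (PolyTime.fst (α := Bool) (β := Bool)) (PolyTime.const true)
    PolyTime.snd).congr ?_
  rintro ⟨a, b⟩
  cases a <;> simp

theorem fr_ne_nil (w : List Bool) : fr w ≠ [] := by
  cases w <;> simp [fr]

theorem PolyTime.isNil : PolyTime (fun l : List α => l.isEmpty) := by
  apply caseF_const true false false
  · intro l hl
    cases l with
    | nil => rfl
    | cons a l =>
      exfalso
      change fr (enc a) ++ encL l = [] at hl
      exact fr_ne_nil _ (List.append_eq_nil_iff.1 hl).1
  · intro l w hl
    cases l with
    | nil => exact absurd (show [] = false :: w from hl) (by simp)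
    | cons a l => rfl
  · intro l w hl
    cases l with
    | nil => exact absurd (show [] = true :: w from hl) (by simp)
    | cons a l => rfl

theorem PolyTime.cons : PolyTime (fun p : α × List α => p.1 :: p.2) :=
  PolyTime.of_enc (fun _ => rfl)

/-- a test whether the list at the top is empty -/
theorem does_ifNil {p q : P} (l : List α) (X Y : List Bool) (n : ℕ)
    (hp : l = [] → Does p (fr [] ++ X) n Y)
    (hq : ∀ a l', l = a :: l' → Does q (fr (fr (enc a) ++ encL l') ++ X) n Y) :
    Does (.ite .x isT q p) (fr (enc l) ++ X) (n + 1) Y := by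
  intro i r o
  cases l with
  | nil => exact ExecLe.ite_false (by rfl) (hp rfl i r o)
  | cons a l' =>
    refine ExecLe.ite_true ?_ (hq a l' rfl i r o)
    change isT ((fr (fr (enc a) ++ encL l') ++ X).head?) = true
    rcases h : fr (enc a) ++ encL l' with _ | ⟨c, w⟩
    · exact absurd (List.append_eq_nil_iff.1 h).1 (fr_ne_nil _)
    · rfl

theorem PolyTime.tail : PolyTime (fun l : List α => l.tail) := by
  refine PolyTime.mk (.ite .x isT (.seq unpairF dropF) .skip) (fun l => 24 * esz l + 40)
    (((Bdd.const 24).mul Bdd.size).add (Bdd.const 40)) ?_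
  intro l X
  refine (does_ifNil (n := 24 * esz l + 39) l X _ ?_ ?_).mono (by omega)
  · intro h
    subst h
    intro i r o
    exact (ExecLe.skip _).mono (by omega)
  · intro a l' h
    subst h
    have e := esz_cons a l'
    refine ((does_unpairF (u := enc a) (v := encL l') (X := X)).seq does_dropF).mono ?_
    have ea : (enc a).length = esz a := rfl
    rw [ea]
    omega

theorem PolyTime.headD (d : α) : PolyTime (fun l : List α => l.headD d) := by
  refine PolyTime.mk (.ite .x isT (.seq unpairF (underF dropF)) (.seq dropF (constF (enc d))))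
    (fun l => 60 * esz l + 2 * esz d + 60)
    ((((Bdd.const 60).mul Bdd.size).add (Bdd.const (2 * esz d))).add (Bdd.const 60)) ?_
  intro l X
  refine (does_ifNil (n := 60 * esz l + 2 * esz d + 59) l X _ ?_ ?_).mono (by omega)
  · intro h
    subst h
    refine ((does_dropF (w := []) (X := X)).seq (does_constF (w := enc d))).mono ?_
    have ed : (enc d).length = esz d := rfl
    rw [ed]
    simp only [List.length_nil]
    omega
  · intro a l' h
    subst h
    have e := esz_cons a l'
    refine ((does_unpairF (u := enc a) (v := encL l') (X := X)).seq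
      (does_underF does_dropF)).mono ?_
    have ea : (enc a).length = esz a := rfl
    have el : (encL l').length = esz l' := rfl
    rw [ea, el]
    omega

/-- the loop which writes a word as a list of Booleans -/
def w2lLoop : P :=
  .whl .a isT (.seq (.pop .a) (.seq (.push .x false) (.seq (.push .x true) (.seq (mvBit .a .x)
    (.seq (.push .x true) (.seq (.push .x true) (.push .x true)))))))

theorem exec_w2lLoop (i r o X : List Bool) : ∀ (w v : List Bool),
    ExecLe w2lLoop (st i (fr (encL v) ++ X) r (fr w) [] o) (20 * w.length + 1)
      (st i (fr (encL (w.reverse ++ v)) ++ X) r [false] [] o) := by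
  intro w
  induction w with
  | nil => intro v; exact ExecLe.whl_done rfl
  | cons c w ih =>
    intro v
    have h1 := ExecLe.pop .a (st i (fr (encL v) ++ X) r (fr (c :: w)) [] o)
    simp only [upd_a, st_a] at h1
    have h2 := (ExecLe.push .x false (st i (fr (encL v) ++ X) r (c :: fr w) [] o)).seq
      (ExecLe.push .x true _)
    simp only [upd_x, st_x] at h2
    have h3 := exec_mvBit .a .x (by decide)
      (st i (true :: false :: (fr (encL v) ++ X)) r (c :: fr w) [] o) c (fr w) rfl
    simp only [upd_a, upd_x, st_x] at h3
    have h4 := (ExecLe.push .x true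
      (st i (c :: true :: false :: (fr (encL v) ++ X)) r (fr w) [] o)).seq
      ((ExecLe.push .x true _).seq (ExecLe.push .x true _))
    simp only [upd_x, st_x] at h4
    have h5 := ih (c :: v)
    have e : (c :: w).reverse ++ v = w.reverse ++ (c :: v) := by simp
    rw [e]
    obtain ⟨h2a, h2b⟩ : ExecLe (.push .x false) (st i (fr (encL v) ++ X) r (c :: fr w) [] o) 1
        (st i (false :: (fr (encL v) ++ X)) r (c :: fr w) [] o) ∧
        ExecLe (.push .x true) (st i (false :: (fr (encL v) ++ X)) r (c :: fr w) [] o) 1
        (st i (true :: false :: (fr (encL v) ++ X)) r (c :: fr w) [] o) := by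
      have a1 := ExecLe.push .x false (st i (fr (encL v) ++ X) r (c :: fr w) [] o)
      have a2 := ExecLe.push .x true (st i (false :: (fr (encL v) ++ X)) r (c :: fr w) [] o)
      simp only [upd_x, st_x] at a1 a2
      exact ⟨a1, a2⟩
    have h6 := ExecLe.whl_step (k := .a) (t := isT) (by rfl)
      (h1.seq (h2a.seq (h2b.seq (h3.seq h4)))) h5
    exact h6.mono (by simp only [List.length_cons]; omega)

/-- raw words to lists of Booleans -/
theorem PolyTime.wordToList : PolyTime (fun w : Word => w.w) := by
  refine PolyTime.mk (.seq (mvF .x .a) (.seq (.push .x false) (.seq w2lLoop (.pop .a))))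
    (fun w => 40 * esz w + 40) (((Bdd.const 40).mul Bdd.size).add (Bdd.const 40)) ?_
  rintro ⟨w⟩ X i r o
  have ew : esz (Word.mk w) = w.length := rfl
  have h1 := exec_mvF .x .a (by decide) w (st i (fr w ++ X) r [] [] o) X rfl
  simp only [upd_x, upd_a, st_a, List.append_nil] at h1
  have h2 := ExecLe.push .x false (st i X r (fr w.reverse) [] o)
  simp only [upd_x, st_x] at h2
  have h3 := exec_w2lLoop i r o X w.reverse []
  rw [List.reverse_reverse, List.append_nil, List.length_reverse] at h3
  have h4 := ExecLe.pop .a (st i (fr (encL w) ++ X) r [false] [] o)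
  simp only [upd_a, st_a] at h4
  exact (h1.seq (h2.seq (h3.seq h4))).mono (by omega)

/-- the loop which reads a list of Booleans -/
def l2wLoop : P :=
  .whl .x isT (.seq (.pop .x) (.seq (.pop .x) (.seq (.pop .x) (.seq (mvBit .x .a)
    (.seq (.push .a true) (.seq (.pop .x) (.pop .x)))))))

theorem exec_l2wLoop (i r o X : List Bool) : ∀ (w v : List Bool),
    ExecLe l2wLoop (st i (fr (encL w) ++ X) r (fr v) [] o) (20 * w.length + 1)
      (st i (false :: X) r (fr (w.reverse ++ v)) [] o) := by
  intro w
  induction w with
  | nil => intro v; exact ExecLe.whl_done rfl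
  | cons c w ih =>
    intro v
    have h1 : ExecLe (.pop .x) (st i (fr (encL (c :: w)) ++ X) r (fr v) [] o) 1
        (st i (true :: true :: c :: true :: false :: (fr (encL w) ++ X)) r (fr v) [] o) := by
      have := ExecLe.pop .x (st i (fr (encL (c :: w)) ++ X) r (fr v) [] o)
      simp only [upd_x, st_x] at this
      exact this
    have h2 : ExecLe (.pop .x)
        (st i (true :: true :: c :: true :: false :: (fr (encL w) ++ X)) r (fr v) [] o) 1
        (st i (true :: c :: true :: false :: (fr (encL w) ++ X)) r (fr v) [] o) := by
      have := ExecLe.pop .x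
        (st i (true :: true :: c :: true :: false :: (fr (encL w) ++ X)) r (fr v) [] o)
      simp only [upd_x, st_x] at this
      exact this
    have h3 : ExecLe (.pop .x)
        (st i (true :: c :: true :: false :: (fr (encL w) ++ X)) r (fr v) [] o) 1
        (st i (c :: true :: false :: (fr (encL w) ++ X)) r (fr v) [] o) := by
      have := ExecLe.pop .x
        (st i (true :: c :: true :: false :: (fr (encL w) ++ X)) r (fr v) [] o)
      simp only [upd_x, st_x] at this
      exact this
    have h4 := exec_mvBit .x .a (by decide)
      (st i (c :: true :: false :: (fr (encL w) ++ X)) r (fr v) [] o) c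
      (true :: false :: (fr (encL w) ++ X)) rfl
    simp only [upd_a, upd_x, st_a] at h4
    have h5 := ExecLe.push .a true
      (st i (true :: false :: (fr (encL w) ++ X)) r (c :: fr v) [] o)
    simp only [upd_a, st_a] at h5
    have h6 := (ExecLe.pop .x
      (st i (true :: false :: (fr (encL w) ++ X)) r (true :: c :: fr v) [] o)).seq
      (ExecLe.pop .x _)
    simp only [upd_x, st_x, List.tail_cons] at h6
    have h7 := ih (c :: v)
    have e : (c :: w).reverse ++ v = w.reverse ++ (c :: v) := by simp
    rw [e]
    have h8 := ExecLe.whl_step (k := .x) (t := isT) (by rfl)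
      (h1.seq (h2.seq (h3.seq (h4.seq (h5.seq h6))))) h7
    exact h8.mono (by simp only [List.length_cons]; omega)

theorem PolyTime.listToWord : PolyTime (fun l : List Bool => Word.mk l) := by
  refine PolyTime.mk (.seq (.push .a false) (.seq l2wLoop (.seq (.pop .x) (mvF .a .x))))
    (fun w => 40 * esz w + 40) (((Bdd.const 40).mul Bdd.size).add (Bdd.const 40)) ?_
  intro w X i r o
  have ew : w.length ≤ esz w := length_le_esz w
  have h1 := ExecLe.push .a false (st i (fr (encL w) ++ X) r [] [] o)
  simp only [upd_a, st_a] at h1
  have h2 := exec_l2wLoop i r o X w []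
  rw [List.append_nil] at h2
  have h3 := ExecLe.pop .x (st i (false :: X) r (fr w.reverse) [] o)
  simp only [upd_x, st_x, List.tail_cons] at h3
  have h4 := exec_mvF .a .x (by decide) w.reverse (st i X r (fr w.reverse) [] o) []
    (by simp)
  simp only [upd_a, upd_x, st_x, List.reverse_reverse, List.length_reverse] at h4
  exact (h1.seq (h2.seq (h3.seq h4))).mono (by omega)

end B3

end Pool.Agent.Helper36.PT
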