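import Pool.Agent.Helper14.PT.A1
import Pool.Agent.Helper68.PT.A2
import Pool.Agent.Helper68.PT.A3
import Pool.Agent.Helper68.PT.B2
import Pool.Agent.Helper50.PT.Bounds

/-!
# PT-C: iteration
-/

set_option autoImplicit false

namespace Pool.Agent.Helper36.PT

open Pool.Agent.Helper68.SP

section C

variable {α σ : Type} [Enc α] [Enc σ]

/-- The program of the iteration. -/
def iterP (pn pg ph : P) : P :=
  .seq dupF (.seq dupF (.seq pn (.seq (underF pg) (.seq
    (loopF (.seq swapF (.seq dupF (.seq (underF swapF) (.seq pairF ph)))))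
    (.seq swapF dropF)))))

theorem iter_body {h : α × σ → σ} {ph : P} {d : ℕ}
    (hh : ∀ (a : α × σ) (X : List Bool), Does ph (fr (enc a) ++ X) ((esz a + 2) ^ d)
      (fr (enc (h a)) ++ X)) (a : α) (s : σ) (X : List Bool) (B : ℕ) (hB : esz s ≤ B) :
    Does (.seq swapF (.seq dupF (.seq (underF swapF) (.seq pairF ph))))
      (fr (enc s) ++ (fr (enc a) ++ X))
      (140 * esz a + 80 * B + 200 + (2 * esz a + 1 + B + 2) ^ d)
      (fr (enc (h (a, s))) ++ (fr (enc a) ++ X)) := by
  have h1 := does_swapF (u := enc s) (v := enc a) (X := X)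
  have h2 := does_dupF (w := enc a) (X := fr (enc s) ++ X)
  have h3 := does_underF (w := enc a) (does_swapF (u := enc a) (v := enc s) (X := X))
  have h4 := does_pairF (u := enc a) (v := enc s) (X := fr (enc a) ++ X)
  have h5 := hh (a, s) (fr (enc a) ++ X)
  have e : esz (a, s) = 2 * esz a + 1 + esz s := esz_pair a s
  have h6 : (esz (a, s) + 2) ^ d ≤ (2 * esz a + 1 + B + 2) ^ d := by
    rw [e]
    exact Nat.pow_le_pow_left (by omega) d
  have h7 := h1.seq (h2.seq (h3.seq (h4.seq h5)))
  refine h7.mono ?_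
  have ea : (enc a).length = esz a := rfl
  have es : (enc s).length = esz s := rfl
  rw [ea, es]
  omega

theorem PolyTime.iterate {n : α → ℕ} {g : α → σ} {h : α × σ → σ} (hn : PolyTime n)
    (hg : PolyTime g) (hh : PolyTime h)
    (hb : ∃ B : α → ℕ, Bdd B ∧ ∀ a, ∀ i ≤ n a, esz ((fun s => h (a, s))^[i] (g a)) ≤ B a) :
    PolyTime (fun a => (fun s => h (a, s))^[n a] (g a)) := by
  obtain ⟨B, hB, hb⟩ := hb
  have hnb : Bdd n := (PolyTime.bdd hn).mono (fun a => le_of_eq (esz_nat (n a)).symm)
  obtain ⟨pn, dn, hpn⟩ := hn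
  obtain ⟨pg, dg, hpg⟩ := hg
  obtain ⟨ph, dh, hph⟩ := hh
  have hsz : Bdd (fun a : α => esz a) := Bdd.size
  have hc : ∀ c : ℕ, Bdd (fun _ : α => c) := fun c => Bdd.const c
  refine PolyTime.mk (iterP pn pg ph) (fun a => (40 * esz a + 40) + ((40 * esz a + 40) +
    ((esz a + 2) ^ dn + (((esz a + 2) ^ dg + 20 * n a + 10) +
    ((8 * n a + 10 + n a * ((140 * esz a + 80 * B a + 200 + (2 * esz a + 1 + B a + 2) ^ dh) + 3)) +
    ((20 * B a + 20 * esz a + 20) + (4 * esz a + 4))))))) ?_ ?_
  · have k1 : Bdd (fun a : α => 40 * esz a + 40) := ((hc 40).mul hsz).add (hc 40)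
    have k2 : Bdd (fun a : α => (esz a + 2) ^ dn) := (hsz.add (hc 2)).pow dn
    have k3 : Bdd (fun a : α => (esz a + 2) ^ dg + 20 * n a + 10) :=
      (((hsz.add (hc 2)).pow dg).add ((hc 20).mul hnb)).add (hc 10)
    have k4 : Bdd (fun a : α => 140 * esz a + 80 * B a + 200 +
        (2 * esz a + 1 + B a + 2) ^ dh) :=
      ((((hc 140).mul hsz).add ((hc 80).mul hB)).add (hc 200)).add
        ((((((hc 2).mul hsz).add (hc 1)).add hB).add (hc 2)).pow dh)
    have k5 : Bdd (fun a : α => 8 * n a + 10 + n a * ((140 * esz a + 80 * B a + 200 +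
        (2 * esz a + 1 + B a + 2) ^ dh) + 3)) :=
      (((hc 8).mul hnb).add (hc 10)).add (hnb.mul (k4.add (hc 3)))
    have k6 : Bdd (fun a : α => (20 * B a + 20 * esz a + 20) + (4 * esz a + 4)) :=
      ((((hc 20).mul hB).add ((hc 20).mul hsz)).add (hc 20)).add
        (((hc 4).mul hsz).add (hc 4))
    exact k1.add (k1.add (k2.add (k3.add (k5.add k6))))
  · intro a X
    have h1 := does_dupF (w := enc a) (X := X)
    have h2 := does_dupF (w := enc a) (X := fr (enc a) ++ X)
    have h3 := hpn a (fr (enc a) ++ (fr (enc a) ++ X))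
    have h4 := does_underF (w := enc (n a)) (hpg a (fr (enc a) ++ X))
    have el : (enc (n a)).length = n a := esz_nat (n a)
    have h5 := does_loopF (p := .seq swapF (.seq dupF (.seq (underF swapF) (.seq pairF ph))))
      (w := enc (n a)) (fun i => fr (enc ((fun s => h (a, s))^[i] (g a))) ++ (fr (enc a) ++ X))
      (140 * esz a + 80 * B a + 200 + (2 * esz a + 1 + B a + 2) ^ dh) (by
        intro i hi
        rw [el] at hi
        have := iter_body hph a ((fun s => h (a, s))^[i] (g a)) X (B a) (hb a i hi.le)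
        rw [Function.iterate_succ_apply']
        exact this)
    rw [el] at h4 h5
    have h6 := does_swapF (u := enc ((fun s => h (a, s))^[n a] (g a))) (v := enc a) (X := X)
    have h7 := does_dropF (w := enc a)
      (X := fr (enc ((fun s => h (a, s))^[n a] (g a))) ++ X)
    have h8 := h1.seq (h2.seq (h3.seq (h4.seq (h5.seq (h6.seq h7)))))
    refine h8.mono ?_
    have ea : (enc a).length = esz a := rfl
    have es : (enc ((fun s => h (a, s))^[n a] (g a))).length ≤ B a := hb a (n a) le_rfl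
    rw [ea]
    omega

end C

end Pool.Agent.Helper36.PT
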