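import Pool.Agent.Helper28.PT.E3
import Pool.Agent.Helper14.PT.B3

/-!
# PT-E4: division, primes, binary output
-/

set_option autoImplicit false

namespace Pool.Agent.Helper36.PT

open Finset

variable {α β γ σ : Type} [Enc α] [Enc β] [Enc γ] [Enc σ]

theorem PolyTime.div {f g : α → ℕ} (hf : PolyTime f) (hg : PolyTime g) :
    PolyTime (fun a => f a / g a) := by
  have hg1 : PolyTime (fun p : α × ℕ => g p.1) := PolyTime.comp hg PolyTime.fst
  have hf1 : PolyTime (fun p : α × ℕ => f p.1) := PolyTime.comp hf PolyTime.fst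
  refine (PolyTime.count (Q := fun a i => 0 < g a ∧ (i + 1) * g a ≤ f a) hf
    ((PolyPred.lt (PolyTime.const 0) hg1).and
      (PolyPred.le ((PolyTime.snd.add (PolyTime.const 1)).mul hg1) hf1))).congr (fun a => ?_)
  rcases Nat.eq_zero_or_pos (g a) with h | h
  · simp [h]
  · have : (range (f a)).filter (fun i => 0 < g a ∧ (i + 1) * g a ≤ f a) =
        range (f a / g a) := by
      ext i
      simp only [Finset.mem_filter, Finset.mem_range]
      rw [← Nat.le_div_iff_mul_le h]
      constructor
      · rintro ⟨_, _, h2⟩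
        omega
      · intro h2
        have := Nat.div_le_self (f a) (g a)
        exact ⟨by omega, h, by omega⟩
    rw [this, Finset.card_range]

theorem PolyTime.mod {f g : α → ℕ} (hf : PolyTime f) (hg : PolyTime g) :
    PolyTime (fun a => f a % g a) :=
  (hf.sub (hg.mul (hf.div hg))).congr (fun a => by
    have := Nat.mod_add_div (f a) (g a)
    omega)

theorem PolyPred.dvd {f g : α → ℕ} (hf : PolyTime f) (hg : PolyTime g) :
    PolyPred (fun a => f a ∣ g a) :=
  (PolyPred.eq (hg.mod hf) (PolyTime.const 0)).congr (fun _ => (Nat.dvd_iff_mod_eq_zero).symm)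

theorem PolyPred.prime {f : α → ℕ} (hf : PolyTime f) :
    PolyPred (fun a => Nat.Prime (f a)) := by
  have hf1 : PolyTime (fun p : α × ℕ => f p.1) := PolyTime.comp hf PolyTime.fst
  refine ((PolyPred.le (PolyTime.const 2) hf).and
    (PolyPred.allLt (Q := fun a i => 2 ≤ i → ¬ i ∣ f a) hf
    ((PolyPred.le (PolyTime.const 2) PolyTime.snd).imp
      (PolyPred.dvd PolyTime.snd hf1).not))).congr (fun a => ?_)
  rw [Nat.prime_def_lt']
  constructor
  · rintro ⟨h1, h2⟩
    exact ⟨h1, fun m hm hm2 => h2 m hm2 hm⟩
  · rintro ⟨h1, h2⟩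
    exact ⟨h1, fun m hm hm2 => h2 m hm2 hm⟩

/-- the least prime number which is greater than `f a` -/
theorem PolyTime.nextPrime {f : α → ℕ} (hf : PolyTime f) :
    PolyTime (fun a => PT.mu (2 * f a + 3) (fun i => f a < i ∧ Nat.Prime i)) := by
  have hf1 : PolyTime (fun p : α × ℕ => f p.1) := PolyTime.comp hf PolyTime.fst
  exact PolyTime.mu (n := fun a => 2 * f a + 3) (Q := fun a i => f a < i ∧ Nat.Prime i)
    (((PolyTime.const 2).mul hf).add (PolyTime.const 3))
    ((PolyPred.lt hf1 PolyTime.snd).and (PolyPred.prime PolyTime.snd))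

theorem nextPrime_spec (n : ℕ) : n < PT.mu (2 * n + 3) (fun i => n < i ∧ Nat.Prime i) ∧
    Nat.Prime (PT.mu (2 * n + 3) (fun i => n < i ∧ Nat.Prime i)) := by
  have h : ∃ i < 2 * n + 3, n < i ∧ Nat.Prime i := by
    rcases Nat.eq_zero_or_pos n with h | h
    · exact ⟨2, by omega, by omega, Nat.prime_two⟩
    · obtain ⟨p, hp, h1, h2⟩ := Nat.exists_prime_lt_and_le_two_mul n (by omega)
      exact ⟨p, by omega, h1, hp⟩
  exact (mu_spec h).2

/-! ### binary output -/

theorem encodeNat_zero : Computability.encodeNat 0 = [] := rfl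

theorem encodeNat_two_mul (m : ℕ) (hm : m ≠ 0) :
    Computability.encodeNat (2 * m) = false :: Computability.encodeNat m := by
  unfold Computability.encodeNat
  have e : ((2 * m : ℕ) : Num) = Num.bit0 (m : Num) := by
    have := Num.bit0_of_bit0 (m : Num)
    rw [← this]
    push_cast
    ring
  rw [e]
  have hm' : (m : Num) ≠ 0 := by exact_mod_cast hm
  generalize (m : Num) = k at hm' ⊢
  cases k with
  | zero => exact absurd rfl hm'
  | pos p => rfl

theorem encodeNat_two_mul_add_one (m : ℕ) :
    Computability.encodeNat (2 * m + 1) = true :: Computability.encodeNat m := by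
  unfold Computability.encodeNat
  have e : ((2 * m + 1 : ℕ) : Num) = Num.bit1 (m : Num) := by
    have := Num.bit1_of_bit1 (m : Num)
    rw [← this]
    push_cast
    ring
  rw [e]
  generalize (m : Num) = k
  cases k with
  | zero => rfl
  | pos p => rfl

theorem encodeNat_rec (m : ℕ) : Computability.encodeNat m =
    if m = 0 then [] else decide (m % 2 = 1) :: Computability.encodeNat (m / 2) := by
  by_cases h : m = 0
  · rw [if_pos h, h]; rfl
  · rw [if_neg h]
    rcases Nat.even_or_odd' m with ⟨k, hk | hk⟩
    · subst hk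
      have e1 : decide (2 * k % 2 = 1) = false := by simp
      have e2 : 2 * k / 2 = k := by omega
      rw [e1, e2]
      exact encodeNat_two_mul k (by omega)
    · subst hk
      have e1 : decide ((2 * k + 1) % 2 = 1) = true := by
        rw [decide_eq_true_iff]; omega
      have e2 : (2 * k + 1) / 2 = k := by omega
      rw [e1, e2]
      exact encodeNat_two_mul_add_one k

theorem length_encodeNat_le (m : ℕ) : (Computability.encodeNat m).length ≤ m := by
  induction m using Nat.strong_induction_on with
  | _ m ih =>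
    rw [encodeNat_rec]
    by_cases h : m = 0
    · simp [h]
    · rw [if_neg h, List.length_cons]
      have := ih (m / 2) (by omega)
      omega

/-- repeated division by two -/
theorem PolyTime.halve {f g : α → ℕ} (hf : PolyTime f) (hg : PolyTime g) :
    PolyTime (fun a => f a / 2 ^ g a) := by
  have h1 : PolyTime (fun a => (fun s => (fun p : α × ℕ => p.2 / 2) (a, s))^[g a] (f a)) := by
    refine PolyTime.iterate hg hf (PolyTime.snd.div (PolyTime.const 2))
      ⟨fun a => f a, (PolyTime.bdd hf).mono (fun a => le_of_eq (esz_nat (f a)).symm), ?_⟩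
    intro a i _
    rw [esz_nat]
    have : ∀ i : ℕ, ∀ x : ℕ, (fun s : ℕ => s / 2)^[i] x ≤ x := by
      intro i
      induction i with
      | zero => intro x; exact le_rfl
      | succ i ih =>
        intro x
        rw [Function.iterate_succ_apply]
        exact (ih _).trans (Nat.div_le_self _ _)
    exact this i (f a)
  refine h1.congr (fun a => ?_)
  have : ∀ i : ℕ, ∀ x : ℕ, (fun s : ℕ => s / 2)^[i] x = x / 2 ^ i := by
    intro i
    induction i with
    | zero => intro x; simp
    | succ i ih =>
      intro x
      rw [Function.iterate_succ_apply, ih, Nat.div_div_eq_div_mul, pow_succ, mul_comm 2]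
  exact this (g a) (f a)

theorem recN_encodeNat (n k : ℕ) (hk : k ≤ n) :
    recN ([] : List Bool) (fun k s => if n / 2 ^ (n - 1 - k) = 0 then []
      else decide (n / 2 ^ (n - 1 - k) % 2 = 1) :: s) k =
      Computability.encodeNat (n / 2 ^ (n - k)) := by
  induction k with
  | zero =>
    have : n / 2 ^ (n - 0) = 0 := by
      rw [Nat.sub_zero]
      exact Nat.div_eq_of_lt Nat.lt_two_pow_self
    rw [this]
    rfl
  | succ k ih =>
    have h := ih (by omega)
    rw [recN, h, encodeNat_rec (n / 2 ^ (n - (k + 1)))]
    have e1 : n - (k + 1) = n - 1 - k := by omega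
    have e2 : n / 2 ^ (n - k) = n / 2 ^ (n - 1 - k) / 2 := by
      rw [Nat.div_div_eq_div_mul, ← pow_succ]
      congr 2
      omega
    rw [e1, e2]

/-- binary output -/
theorem PolyTime.encodeNat {f : α → ℕ} (hf : PolyTime f) :
    PolyTime (fun a => Word.mk (Computability.encodeNat (f a))) := by
  have hm : PolyTime (fun p : (α × ℕ) × List Bool => f p.1.1 / 2 ^ (f p.1.1 - 1 - p.1.2)) := by
    have h1 : PolyTime (fun p : (α × ℕ) × List Bool => f p.1.1) :=
      PolyTime.comp hf (PolyTime.comp PolyTime.fst PolyTime.fst)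
    have h2 : PolyTime (fun p : (α × ℕ) × List Bool => p.1.2) :=
      PolyTime.comp PolyTime.snd PolyTime.fst
    exact h1.halve ((h1.sub (PolyTime.const 1)).sub h2)
  have h : PolyTime (fun a => PT.recN ([] : List Bool) ((fun (a : α) (k : ℕ) (s : List Bool) =>
      if f a / 2 ^ (f a - 1 - k) = 0 then []
      else decide (f a / 2 ^ (f a - 1 - k) % 2 = 1) :: s) a) (f a)) := by
    refine PolyTime.recN hf (PolyTime.const []) ?_ ?_
    · refine PolyTime.ite (PolyPred.eq hm (PolyTime.const 0)) (PolyTime.const []) ?_
      have hd : PolyTime (fun p : (α × ℕ) × List Bool =>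
          decide (f p.1.1 / 2 ^ (f p.1.1 - 1 - p.1.2) % 2 = 1)) := by
        refine (PolyTime.dec (PolyPred.eq (hm.mod (PolyTime.const 2))
          (PolyTime.const 1))).congr (fun p => ?_)
        by_cases h : f p.1.1 / 2 ^ (f p.1.1 - 1 - p.1.2) % 2 = 1
        · rw [decide_eq_true h]
          exact (dec_eq_true _).2 h
        · rw [decide_eq_false h]
          by_contra h'
          exact h ((dec_eq_true _).1 (by simpa using h'))
      exact PolyTime.comp PolyTime.cons (hd.pair PolyTime.snd)
    · refine ⟨fun a => 3 * f a, (Bdd.const 3).mul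
        ((PolyTime.bdd hf).mono (fun a => le_of_eq (esz_nat (f a)).symm)), ?_⟩
      intro a i hi
      rw [recN_encodeNat (f a) i hi]
      have h1 := esz_list_le (l := Computability.encodeNat (f a / 2 ^ (f a - i))) (B := 1)
        (fun c _ => le_of_eq (esz_bool c))
      have h2 := length_encodeNat_le (f a / 2 ^ (f a - i))
      have h3 := Nat.div_le_self (f a) (2 ^ (f a - i))
      dsimp only
      omega
  refine (PolyTime.comp PolyTime.listToWord h).congr (fun a => ?_)
  dsimp only
  rw [recN_encodeNat (f a) (f a) le_rfl, Nat.sub_self, pow_zero, Nat.div_one]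

end Pool.Agent.Helper36.PT
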